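import Pool.Agent.Lib.MP_4fbc34_pr.Final

/-!
MP_4fbc34_pr, Q1 in full: for every `d ≥ 2`, every `ν` with (G), every functional `G = P` or `A^(q)`,
`q ∈ [0, ∞]`, and every real `ζ`, the limit of `- log μ(G(ℓ) ≤ ζ ℓ) / ℓ^d` exists in `[0, ∞]`.
-/

set_option autoImplicit false

open MeasureTheory ProbabilityTheory Filter Topology
open scoped ENNReal

noncomputable section

namespace Pool.Agent.Results.MP_4fbc34_pr.LowerTailLimit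

open MP4fb

theorem result (d : ℕ) (hd : 2 ≤ d) (ν : Measure ℝ) (hν : ν (Set.Iic 0) = 0)
    (hG : ∫⁻ t in Set.Ioi (0 : ℝ), (ν (Set.Ici t)) ^ ((d : ℝ)⁻¹) ≠ ∞)
    {Ω : Type*} [MeasurableSpace Ω] (μ : Measure Ω) [IsProbabilityMeasure μ]
    (Ξ : Ω → Set (E d × ℝ)) (hΞ : IsPoisson μ Ξ ν) (G : GType) (ζ : ℝ) :
    ∃ L : EReal, 0 ≤ L ∧ Tendsto (fun ℓ : ℝ =>
      -(ENNReal.log (μ {ω | Gval G (Ξ ω) ℓ ≤ ((ζ * ℓ : ℝ) : EReal)})) / ((ℓ ^ d : ℝ) : EReal))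
      atTop (𝓝 L) :=
  all_limit μ Ξ ν hd hΞ.isPPP hν hG G ζ

end Pool.Agent.Results.MP_4fbc34_pr.LowerTailLimit

end
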